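import Pool.Agent.P.MP_3acc10_al.HdMain

namespace Pool.Agent.Results.MP_3acc10_al.HighDegree

open Pool.Agent.P.MP_3acc10_al

theorem result (K : Type) [Field K] [Infinite K] (h2 : (2 : K) ≠ 0) (n r : ℕ) (d : Fin r → ℕ) :
    ∃ P : MvPolynomial (Fin r × Finset (Fin n)) K, P ≠ 0 ∧ ∀ c, MvPolynomial.eval c P ≠ 0 → ∀ j,
      ((∀ i, n + 8 ≤ 3 * d i) ∨ ∃ J, (∀ i, J + 4 ≤ 2 * d i ∨ (J < 2 * d i ∧ 16 * d i ≤ n)) ∧
        (j ≤ J ∨ truncCoeff (series n d Finset.univ) J = 0)) →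
      (hilb d c j : ℤ) = truncCoeff (series n d Finset.univ) j := by
  obtain ⟨P, hP, h⟩ := Hd.main h2 n r d
  refine ⟨P, hP, fun c hc j hj => ?_⟩
  rcases hj with hj | ⟨J, hJ, hj | hj⟩
  · exact (h c hc).2.2 hj j
  · exact (h c hc).1 j fun i => by have := hJ i; unfold Hd.Rg; omega
  · exact (h c hc).2.1 J hJ hj j

end Pool.Agent.Results.MP_3acc10_al.HighDegree
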