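import Pool.Agent.P.MP_3acc10_al.LtWin
import Pool.Agent.P.MP_3acc10_al.LtMar

namespace Pool.Agent.Results.MP_3acc10_al.StableAll

open Pool.Agent.P.MP_3acc10_al

theorem result : ∃ C : ℝ, 0 < C ∧ ∀ (K : Type) [Field K] [Infinite K] (n r : ℕ) (d : Fin r → ℕ),
    (∀ i, 1 ≤ d i) →
    ∃ P : MvPolynomial (Fin r × Finset (Fin n)) K, P ≠ 0 ∧ ∀ c, MvPolynomial.eval c P ≠ 0 →
      ∀ j J a : ℕ, 0 < a → 2 * a ≤ n → C * Real.log (n / a) * n * (n + J * a) ≤ a ^ 3 →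
        ((ringChar K = 0 ∨ ∀ i, j < ringChar K * d i) ∧ j ≤ J ∧
            C * Real.log (n / a) * J * n ^ 2 ≤
              a ^ 2 * (n - (Finset.univ.filter fun i => d i = 1).card : ℕ) ∧
            truncCoeff (series (n - a) d Finset.univ) J ≠ 0 ∨
          J ≤ j ∧ truncCoeff (series (n + a) d Finset.univ) J = 0) →
        (hilb d c j : ℤ) = truncCoeff (series n d Finset.univ) j :=
  Wn.stable

/-- Consequence: with at most `n - v` linear forms and a cut by degree `s`, the Hilbert function is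
the predicted one outside `k` consecutive degrees if
`C s ^ 3 log (2 s n / (k v)) n ^ 2 ≤ k ^ 2 v ^ 3`. -/
theorem window : ∃ C : ℝ, 0 < C ∧ ∀ (K : Type) [Field K] [Infinite K] (n r : ℕ)
    (d : Fin r → ℕ), (∀ i, 1 ≤ d i) → ∀ s k v : ℕ, 0 < k → k ≤ s → 0 < v →
    v + (Finset.univ.filter fun i => d i = 1).card ≤ n →
    C * s ^ 3 * Real.log (2 * s * n / (k * v)) * n ^ 2 ≤ k ^ 2 * v ^ 3 →
    truncCoeff (series n d Finset.univ) s = 0 →
    ∃ i ≤ s, truncCoeff (series n d Finset.univ) (i + k) = 0 ∧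
    ∃ P : MvPolynomial (Fin r × Finset (Fin n)) K, P ≠ 0 ∧ ∀ c, MvPolynomial.eval c P ≠ 0 →
      ∀ j : ℕ, (j < i ∧ (ringChar K = 0 ∨ ∀ l, j < ringChar K * d l) ∨ i + k ≤ j) →
        (hilb d c j : ℤ) = truncCoeff (series n d Finset.univ) j :=
  Wn.window

/-- Consequence: all degrees, for a bounded cut with margin `n ^ (-1 / 4)`. -/
theorem margin (J : ℕ) : ∃ n0 : ℕ, ∀ (K : Type) [Field K] [CharZero K] (n r : ℕ) (d : Fin r → ℕ),
    n0 ≤ n → (∀ i, 0 < d i) → (∀ i < J, 0 < truncCoeff (series n d Finset.univ) i →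
      (n : ℝ) ^ ((i + 1 : ℝ) - 1 / 4) ≤ |(((series n d Finset.univ).coeff (i + 1) : ℤ) : ℝ)|) →
    ∃ P : MvPolynomial (Fin r × Finset (Fin n)) K, P ≠ 0 ∧ ∀ c, MvPolynomial.eval c P ≠ 0 →
      ∀ j, (j ≤ J ∨ truncCoeff (series n d Finset.univ) J = 0) →
        (hilb d c j : ℤ) = truncCoeff (series n d Finset.univ) j :=
  Wn.margin J

end Pool.Agent.Results.MP_3acc10_al.StableAll
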