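import Pool.Agent.P.MP_3acc10_al.WnMain

namespace Pool.Agent.Results.MP_3acc10_al.Window

open Pool.Agent.P.MP_3acc10_al

theorem result : ∃ C : ℝ, 0 < C ∧ ∀ (K : Type) [Field K] [CharZero K] (n r D : ℕ) (d : Fin r → ℕ),
    0 < D → (∀ i, D ≤ d i) → C * (Finset.univ.filter fun i => d i = 1).card ≤ n →
    ∃ P : MvPolynomial (Fin r × Finset (Fin n)) K, P ≠ 0 ∧ ∀ c, MvPolynomial.eval c P ≠ 0 →
      ∀ j J : ℕ, ((1 + C / √D) * j ≤ J ∧ truncCoeff (series n d Finset.univ) J ≠ 0 ∨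
        (1 + C / √D) * J ≤ j ∧ truncCoeff (series n d Finset.univ) J = 0) →
        (hilb d c j : ℤ) = truncCoeff (series n d Finset.univ) j :=
  Wn.main

/-- The instance `D = 1`, `J = L * j`: exactness up to a fixed fraction of the cut degree. -/
theorem fraction (D : ℕ) : ∃ L : ℕ, 0 < L ∧ ∀ (K : Type) [Field K] [CharZero K] (n r : ℕ)
    (d : Fin r → ℕ), 0 < n → (∀ i, 0 < d i ∧ d i ≤ D) →
    L * (Finset.univ.filter fun i => d i = 1).card ≤ n →
    ∃ P : MvPolynomial (Fin r × Finset (Fin n)) K, P ≠ 0 ∧ ∀ c, MvPolynomial.eval c P ≠ 0 →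
      ∀ j : ℕ, 0 < truncCoeff (series n d Finset.univ) (L * j) →
        (hilb d c j : ℤ) = truncCoeff (series n d Finset.univ) j := by
  obtain ⟨C, -, h⟩ := result
  have hL : 1 + C ≤ (⌈C⌉₊ + 1 : ℕ) := by push_cast; linarith [Nat.le_ceil C]
  refine ⟨⌈C⌉₊ + 1, Nat.succ_pos _, fun K _ _ n r d _ hd hn => ?_⟩
  obtain ⟨P, h0, hP⟩ := h K n r 1 d one_pos (fun i => (hd i).1)
    ((mul_le_mul_of_nonneg_right ((le_add_of_nonneg_left one_pos.le).trans hL)
      (Nat.cast_nonneg _)).trans (by exact_mod_cast hn))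
  refine ⟨P, h0, fun c hc j hj => hP c hc j _ (Or.inl ⟨?_, hj.ne'⟩)⟩
  rw [Nat.cast_one, Real.sqrt_one, div_one, Nat.cast_mul]
  exact mul_le_mul_of_nonneg_right hL (Nat.cast_nonneg _)

end Pool.Agent.Results.MP_3acc10_al.Window
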